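import Mathlib

namespace Pool.Agent.Results.MP_25c86d_nt.OddPrimes

open Polynomial

/-- The class of `a + b x` in `R_{σ,n} = Z_n[x]/(x^σ - 1)`. -/
noncomputable def gen (σ n : ℕ) (a b : ZMod n) : AdjoinRoot ((X : (ZMod n)[X]) ^ σ - 1) :=
  AdjoinRoot.mk _ (C a + C b * X)

/-- The period `Π_σ(a,b;n)`. -/
noncomputable def Per (σ n : ℕ) (a b : ZMod n) : ℕ :=
  sInf {k | 1 ≤ k ∧ ∃ l, gen σ n a b ^ (k + l) = gen σ n a b ^ l}

/-- The maximal period `π_σ(n)`. -/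
noncomputable def maxPer (σ n : ℕ) : ℕ := ⨆ ab : ZMod n × ZMod n, Per σ n ab.1 ab.2

/-! ### Periods in a finite monoid -/

lemma mono_l {M : Type*} [Monoid M] {γ : M} {k l l' : ℕ} (h : γ ^ (k + l) = γ ^ l)
    (hl : l ≤ l') : γ ^ (k + l') = γ ^ l' := by
  obtain ⟨d, rfl⟩ := Nat.exists_eq_add_of_le hl
  rw [← add_assoc, pow_add, h, ← pow_add]

lemma mul_per {M : Type*} [Monoid M] {γ : M} {k l : ℕ} (h : γ ^ (k + l) = γ ^ l) (t : ℕ) :
    γ ^ (k * t + l) = γ ^ l := by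
  induction t with
  | zero => simp
  | succ t ih =>
    rw [show k * (t + 1) + l = k * t + (k + l) by ring, pow_add, h, ← pow_add, ih]

lemma per_iff {M : Type*} [Monoid M] [Finite M] (γ : M) :
    1 ≤ sInf {k | 1 ≤ k ∧ ∃ l, γ ^ (k + l) = γ ^ l} ∧
    ∀ k, (∃ l, γ ^ (k + l) = γ ^ l) ↔ sInf {k | 1 ≤ k ∧ ∃ l, γ ^ (k + l) = γ ^ l} ∣ k := by
  have hne : {k | 1 ≤ k ∧ ∃ l, γ ^ (k + l) = γ ^ l}.Nonempty := by
    obtain ⟨i, j, hij, he⟩ := Finite.exists_ne_map_eq_of_infinite (fun n : ℕ => γ ^ n)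
    rcases lt_or_gt_of_ne hij with h | h
    · exact ⟨j - i, by omega, i, by rw [Nat.sub_add_cancel h.le]; exact he.symm⟩
    · exact ⟨i - j, by omega, j, by rw [Nat.sub_add_cancel h.le]; exact he⟩
  obtain ⟨h1, l0, h0⟩ := Nat.sInf_mem hne
  set K := sInf {k | 1 ≤ k ∧ ∃ l, γ ^ (k + l) = γ ^ l} with hK
  refine ⟨h1, fun k => ⟨?_, ?_⟩⟩
  · rintro ⟨l, hl⟩
    have e1 := mono_l hl (Nat.le_add_right l l0)
    have e2 := mono_l (mul_per h0 (k / K)) (Nat.le_add_left l0 l)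
    have e3 : γ ^ (k % K + (l + l0)) = γ ^ (l + l0) := by
      rw [pow_add, ← e2, ← pow_add, ← add_assoc, Nat.mod_add_div, e1, e2]
    by_contra hd
    have hpos : 1 ≤ k % K := Nat.pos_of_ne_zero (fun h => hd (Nat.dvd_of_mod_eq_zero h))
    have : K ≤ k % K := Nat.sInf_le ⟨hpos, _, e3⟩
    have := Nat.mod_lt k h1
    omega
  · rintro ⟨t, rfl⟩
    exact ⟨l0, mul_per h0 t⟩

/-! ### Lifting in a ring where `p` is regular -/

def PP {R : Type*} [CommRing R] (n γ : R) (k : ℕ) : Prop := ∃ l, n ∣ γ ^ (k + l) - γ ^ l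

lemma dvd_mono_l {R : Type*} [CommRing R] {n γ : R} {k l l' : ℕ} (h : n ∣ γ ^ (k + l) - γ ^ l)
    (hl : l ≤ l') : n ∣ γ ^ (k + l') - γ ^ l' := by
  obtain ⟨d, rfl⟩ := Nat.exists_eq_add_of_le hl
  have := h.mul_right (γ ^ d)
  convert this using 1
  ring

lemma lift_step {R : Type*} [CommRing R] {p : ℕ} (hp : Odd p)
    (hreg : ∀ r : R, (p : R) * r = 0 → r = 0) (γ : R) (j k : ℕ)
    (h : PP ((p : R) ^ (j + 1)) γ k) : PP ((p : R) ^ (j + 2)) γ (p * k) ∧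
      (PP ((p : R) ^ (j + 3)) γ (p * k) → PP ((p : R) ^ (j + 2)) γ k) := by
  obtain ⟨l, r, hr⟩ := h
  have hA : γ ^ (k + l) = γ ^ l + p * (p ^ j * r) := by linear_combination hr
  obtain ⟨t, ht⟩ := odd_sq_dvd_geom_sum₂_sub (R := R) (γ ^ l) (p ^ j * r) hp
  have hg := geom_sum₂_mul (γ ^ l + p * (p ^ j * r)) (γ ^ l) p
  have key : γ ^ (p * k + p * l) - γ ^ (p * l) =
      p ^ (j + 2) * (r * (γ ^ l) ^ (p - 1)) + p ^ (j + 3) * (r * t) := by
    rw [← mul_add, mul_comm p (k + l), mul_comm p l, pow_mul, pow_mul, hA, ← hg,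
      sub_eq_iff_eq_add.1 ht]
    ring
  have hregk : ∀ (i : ℕ) (r : R), (p : R) ^ i * r = 0 → r = 0 := by
    intro i
    induction i with
    | zero => simp
    | succ i ih => intro r h; apply ih; apply hreg; linear_combination h
  refine ⟨⟨p * l, ⟨r * (γ ^ l) ^ (p - 1) + p * (r * t), by rw [key]; ring⟩⟩, ?_⟩
  rintro ⟨l', hl'⟩
  obtain ⟨s, hs⟩ := dvd_mono_l hl' (Nat.le_add_left l' (p * l))
  have e : r * (γ ^ l) ^ (p - 1) * γ ^ l' - p * (s - r * t * γ ^ l') = 0 := by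
    apply hregk (j + 2)
    linear_combination hs - γ ^ l' * key
  refine ⟨l + (l * (p - 1) + l'), s - r * t * γ ^ l', ?_⟩
  rw [← pow_mul] at e
  linear_combination (γ ^ (l * (p - 1) + l')) * hr + p ^ (j + 1) * e

lemma lift_all {R : Type*} [CommRing R] {p : ℕ} (hp : Odd p)
    (hreg : ∀ r : R, (p : R) * r = 0 → r = 0) (γ : R) (k : ℕ)
    (h1 : PP ((p : R) ^ 1) γ k) (h2 : ¬ PP ((p : R) ^ 2) γ k) (j : ℕ) :
    PP ((p : R) ^ (j + 1)) γ (p ^ j * k) ∧ ¬ PP ((p : R) ^ (j + 2)) γ (p ^ j * k) := by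
  induction j with
  | zero => simpa using ⟨by simpa using h1, h2⟩
  | succ j ih =>
    obtain ⟨a, b⟩ := lift_step hp hreg γ j _ ih.1
    rw [show p ^ (j + 1) * k = p * (p ^ j * k) by ring]
    exact ⟨a, fun h => ih.2 (b h)⟩

lemma twist {R : Type*} [CommRing R] {p : ℕ} (hp : p.Prime)
    (hreg : ∀ r : R, (p : R) * r = 0 → r = 0) (γ : R) (k : ℕ) (hk : ¬ p ∣ k)
    (h1 : PP ((p : R) ^ 2) γ k) (h2 : PP ((p : R) ^ 2) ((1 + p) * γ) k) : PP (p : R) γ 1 := by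
  obtain ⟨l1, h1⟩ := h1
  obtain ⟨l2, h2⟩ := h2
  obtain ⟨s1, e1⟩ := dvd_mono_l h1 (Nat.le_add_right l1 l2)
  obtain ⟨s2, e2⟩ := dvd_mono_l h2 (Nat.le_add_left l2 l1)
  set l := l1 + l2
  have b1 : ∀ n : ℕ, ∃ t : R, (1 + p : R) ^ n = 1 + n * p + p ^ 2 * t := by
    intro n
    induction n with
    | zero => exact ⟨0, by simp⟩
    | succ n ih =>
      obtain ⟨t, ht⟩ := ih
      exact ⟨n + t + p * t, by rw [pow_succ, ht]; push_cast; ring⟩
  obtain ⟨t1, f1⟩ := b1 k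
  obtain ⟨t2, f2⟩ := b1 l
  have hc : IsCoprime (k : ℤ) (p : ℤ) :=
    Nat.isCoprime_iff_coprime.2 ((Nat.Prime.coprime_iff_not_dvd hp).2 hk).symm
  obtain ⟨u, v, huv⟩ := hc
  have huv' : (u : R) * k + v * p = 1 := by
    have := congrArg (Int.cast : ℤ → R) huv
    push_cast at this
    exact this
  rw [mul_pow, mul_pow, pow_add (1 + (p : R)), f1, f2] at e2
  have e3 : (k : R) * γ ^ (k + l) - p * (s2 - (1 + l * p + p ^ 2 * t2) * s1
      - (1 + l * p + p ^ 2 * t2) * t1 * γ ^ (k + l) - (l + p * t2) * k * γ ^ (k + l)) = 0 := by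
    apply hreg
    linear_combination e2 - (1 + l * p + p ^ 2 * t2) * e1
  have e4 : (p : R) ∣ γ ^ (k + l) := by
    refine ⟨u * (s2 - (1 + l * p + p ^ 2 * t2) * s1
      - (1 + l * p + p ^ 2 * t2) * t1 * γ ^ (k + l) - (l + p * t2) * k * γ ^ (k + l))
      + v * γ ^ (k + l), ?_⟩
    linear_combination u * e3 - γ ^ (k + l) * huv'
  refine ⟨k + l, ?_⟩
  have := e4.mul_left (γ - 1)
  convert this using 1
  ring

/-! ### Bridges -/

lemma monicF (R : Type*) [CommRing R] {σ : ℕ} (hσ : σ ≠ 0) : ((X : R[X]) ^ σ - 1).Monic := by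
  simpa using monic_X_pow_sub_C (1 : R) hσ

lemma C_dvd_iff (n : ℕ) (h : ℤ[X]) :
    (n : ℤ[X]) ∣ h ↔ h.map (Int.castRingHom (ZMod n)) = 0 := by
  rw [← C_eq_natCast, C_dvd_iff_dvd_coeff]
  constructor
  · intro H
    ext i
    simpa [ZMod.intCast_zmod_eq_zero_iff_dvd] using H i
  · intro H i
    have := congrArg (fun f => coeff f i) H
    simpa [ZMod.intCast_zmod_eq_zero_iff_dvd] using this

lemma bridge1 (F h : ℤ[X]) (n : ℕ) :
    (n : AdjoinRoot F) ∣ AdjoinRoot.mk F h ↔ ∃ w q, h = n * w + F * q := by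
  constructor
  · rintro ⟨s, hs⟩
    obtain ⟨w, rfl⟩ := AdjoinRoot.mk_surjective s
    have : AdjoinRoot.mk F h = AdjoinRoot.mk F (n * w) := by rw [hs]; simp
    obtain ⟨q, hq⟩ := AdjoinRoot.mk_eq_mk.1 this
    exact ⟨w, q, by linear_combination hq⟩
  · rintro ⟨w, q, rfl⟩
    exact ⟨AdjoinRoot.mk F w, by simp⟩

lemma bridge2 (F h : ℤ[X]) (n : ℕ) : (∃ w q, h = n * w + F * q) ↔
    F.map (Int.castRingHom (ZMod n)) ∣ h.map (Int.castRingHom (ZMod n)) := by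
  constructor
  · rintro ⟨w, q, rfl⟩
    exact ⟨q.map (Int.castRingHom (ZMod n)), by simp⟩
  · rintro ⟨s, hs⟩
    obtain ⟨q, rfl⟩ := map_surjective (Int.castRingHom (ZMod n)) ZMod.intCast_surjective s
    obtain ⟨w, hw⟩ := (C_dvd_iff n (h - F * q)).2 (by simp [hs])
    exact ⟨w, q, by linear_combination hw⟩

abbrev Rz (σ : ℕ) := AdjoinRoot ((X : ℤ[X]) ^ σ - 1)

noncomputable def G (σ : ℕ) (a b : ℤ) : Rz σ := AdjoinRoot.mk _ (C a + C b * X)

/-- period relation read in `Z_n[X]` -/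
def LL (σ n : ℕ) (a b : ZMod n) (k : ℕ) : Prop :=
  ∃ l, (X : (ZMod n)[X]) ^ σ - 1 ∣ (C a + C b * X) ^ (k + l) - (C a + C b * X) ^ l

lemma PP_iff (σ n : ℕ) (a b : ℤ) (k : ℕ) : PP (n : Rz σ) (G σ a b) k ↔ LL σ n a b k := by
  refine exists_congr (fun l => ?_)
  rw [G, ← map_pow, ← map_pow, ← map_sub, bridge1, bridge2]
  simp

lemma LL_iff {σ n : ℕ} (hσ : σ ≠ 0) (hn : n ≠ 0) (a b : ZMod n) :
    1 ≤ Per σ n a b ∧ ∀ k, LL σ n a b k ↔ Per σ n a b ∣ k := by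
  have : NeZero n := ⟨hn⟩
  have := (AdjoinRoot.powerBasis' (monicF (ZMod n) hσ)).finite
  have : Finite (AdjoinRoot ((X : (ZMod n)[X]) ^ σ - 1)) := Module.finite_of_finite (ZMod n)
  obtain ⟨h1, h2⟩ := per_iff (gen σ n a b)
  refine ⟨h1, fun k => Iff.trans (exists_congr (fun l => ?_)) (h2 k)⟩
  rw [gen, ← map_pow, ← map_pow, AdjoinRoot.mk_eq_mk]

lemma reg {σ p : ℕ} (hσ : σ ≠ 0) (hp : p ≠ 0) (r : Rz σ) (h : (p : Rz σ) * r = 0) : r = 0 := by
  obtain ⟨w, rfl⟩ := AdjoinRoot.mk_surjective r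
  have h1 : AdjoinRoot.mk ((X : ℤ[X]) ^ σ - 1) ((p : ℤ) • w) = 0 := by
    rw [← h]; simp
  rw [AdjoinRoot.mk_eq_zero, ← modByMonic_eq_zero_iff_dvd (monicF ℤ hσ)] at h1 ⊢
  rw [smul_modByMonic] at h1
  exact (smul_eq_zero.1 h1).resolve_left (by exact_mod_cast hp)

/-! ### The derivative argument -/

lemma lin_deriv {R : Type*} [CommRing R] (a b : R) (N : ℕ) :
    (C a + C b * X) * derivative ((C a + C b * X) ^ N) =
      (N : R[X]) * C b * (C a + C b * X) ^ N := by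
  cases N with
  | zero => simp
  | succ N => rw [derivative_pow_succ]; simp; ring

lemma X_deriv {R : Type*} [CommRing R] (N : ℕ) :
    X * derivative ((X : R[X]) ^ N - 1) = (N : R[X]) * X ^ N := by
  cases N with
  | zero => simp
  | succ N => rw [derivative_sub, derivative_X_pow_succ]; simp; ring

lemma deriv_arg {p : ℕ} [hp : Fact p.Prime] (τ K l : ℕ) (hτ : τ ≠ 0) (a b : ℤ) (w q : ℤ[X])
    (ha : (a : ZMod p) ≠ 0) (hb : (b : ZMod p) ≠ 0) (hK : (K : ZMod p) ≠ 0)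
    (h : (C a + C b * X) ^ (p * (K + l)) - (C a + C b * X) ^ (p * l) =
      (p : ℤ[X]) ^ 2 * w + (X ^ (p * τ) - 1) * q) :
    (X : (ZMod p)[X]) ^ (p * τ) - 1 ∣ (C (a : ZMod p) + C (b : ZMod p) * X) ^ (p * l) := by
  have hp0 : p ≠ 0 := hp.out.ne_zero
  set φ := Int.castRingHom (ZMod p) with hφ
  set g : (ZMod p)[X] := C (a : ZMod p) + C (b : ZMod p) * X with hg
  set F : (ZMod p)[X] := X ^ (p * τ) - 1 with hF
  have hpz : (p : (ZMod p)[X]) = 0 := CharP.cast_eq_zero _ p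
  have dpow : ∀ (f : (ZMod p)[X]) (n : ℕ), derivative (f ^ (p * n)) = 0 := by
    intro f n
    rw [derivative_pow]
    simp
  have dF : derivative F = 0 := by rw [hF, derivative_sub, dpow]; simp
  have hF0 : F ≠ 0 := (monicF (ZMod p) (mul_ne_zero hp0 hτ)).ne_zero
  have e0 : g ^ (p * (K + l)) - g ^ (p * l) = F * q.map φ := by
    have := congrArg (Polynomial.map φ) h
    simpa [hpz, hφ, hg, hF] using this
  have dq : derivative (q.map φ) = 0 := by
    have := congrArg derivative e0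
    rw [derivative_sub, dpow, dpow, derivative_mul, dF] at this
    have h2 : F * derivative (q.map φ) = 0 := by simpa using this.symm
    exact (mul_eq_zero.1 h2).resolve_left hF0
  obtain ⟨q2, hq2⟩ := (C_dvd_iff p (derivative q)).2 (by rw [← derivative_map]; exact dq)
  have d1 := congrArg derivative h
  rw [derivative_sub, derivative_add, derivative_mul, derivative_mul, hq2] at d1
  have dp : derivative ((p : ℤ[X]) ^ 2) = 0 := by rw [derivative_pow]; simp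
  rw [dp] at d1
  have l1 := lin_deriv a b (p * (K + l))
  have l2 := lin_deriv a b (p * l)
  have l3 := X_deriv (R := ℤ) (p * τ)
  push_cast at l1 l2 l3
  have e1 : X * C b * (((K : ℤ[X]) + (l : ℤ[X])) * (C a + C b * X) ^ (p * (K + l))
        - (l : ℤ[X]) * (C a + C b * X) ^ (p * l))
      = (p : ℤ[X]) * ((C a + C b * X) * X * derivative w)
        + (τ : ℤ[X]) * (C a + C b * X) * q * X ^ (p * τ)
        + (C a + C b * X) * X * (X ^ (p * τ) - 1) * q2 := by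
    have hpp : (p : ℤ[X]) ≠ 0 := by exact_mod_cast hp0
    apply mul_left_cancel₀ hpp
    linear_combination (C a + C b * X) * X * d1 - X * l1 + X * l2 + (C a + C b * X) * q * l3
  have e2 : X * C (b : ZMod p) * (((K : (ZMod p)[X]) + (l : (ZMod p)[X])) * g ^ (p * (K + l))
        - (l : (ZMod p)[X]) * g ^ (p * l))
      = (τ : (ZMod p)[X]) * g * q.map φ * (F + 1) + g * X * F * q2.map φ := by
    have := congrArg (Polynomial.map φ) e1
    simpa [hpz, hφ, hF, hg] using this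
  set E := g ^ (p * l) with hE
  set hh := (τ : (ZMod p)[X]) * g * q.map φ + g * X * q2.map φ
    - X * C (b : ZMod p) * ((K : (ZMod p)[X]) + (l : (ZMod p)[X])) * q.map φ with hhh
  have e3 : C (b : ZMod p) * (K : (ZMod p)[X]) * X * E
      = (τ : (ZMod p)[X]) * g * q.map φ + F * hh := by
    rw [hhh]
    linear_combination e2 - X * C (b : ZMod p) * ((K : (ZMod p)[X]) + (l : (ZMod p)[X])) * e0
  have dE : derivative E = 0 := dpow _ _
  have dg : derivative g = C (b : ZMod p) := by simp [hg]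
  have e4 : C (b : ZMod p) * (K : (ZMod p)[X]) * E
      = (τ : (ZMod p)[X]) * C (b : ZMod p) * q.map φ + F * derivative hh := by
    have := congrArg derivative e3
    simp only [derivative_mul, derivative_add, dE, dq, dF, dg, derivative_C, derivative_natCast,
      derivative_X] at this
    linear_combination this
  have e5 : C ((a : ZMod p) * b * K) * E = F * (g * derivative hh - C (b : ZMod p) * hh) := by
    rw [C_mul, C_mul, C_eq_natCast]
    linear_combination g * e4 - C (b : ZMod p) * e3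
  have hu : IsUnit (C ((a : ZMod p) * b * K)) :=
    isUnit_C.2 (Ne.isUnit (mul_ne_zero (mul_ne_zero ha hb) hK))
  exact (hu.dvd_mul_left).1 ⟨_, e5⟩

lemma frob {p : ℕ} [hp : Fact p.Prime] (a b : ZMod p) (i : ℕ) :
    (C a + C b * X) ^ p ^ i = C a + C b * X ^ p ^ i := by
  rw [add_pow_char_pow, mul_pow, ← C_pow, ← C_pow, ZMod.pow_card_pow, ZMod.pow_card_pow]

lemma reduce_arg {p : ℕ} [hp : Fact p.Prime] (i τ K : ℕ) (hτ : τ ≠ 0) (a b : ℤ)
    (ha : (a : ZMod p) ≠ 0) (hb : (b : ZMod p) ≠ 0) (hK : (K : ZMod p) ≠ 0)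
    (h : PP ((p : Rz (p ^ (i + 1) * τ)) ^ 2) (G _ a b) (p ^ (i + 1) * K)) :
    LL (p ^ (i + 1) * τ) p a b 1 := by
  have hp0 : p ≠ 0 := hp.out.ne_zero
  have hQ : p ^ i ≠ 0 := pow_ne_zero _ hp0
  obtain ⟨l, hl⟩ := h
  have h1 := dvd_mono_l hl (Nat.le_mul_of_pos_left l (Nat.pos_of_ne_zero (pow_ne_zero (i + 1) hp0)))
  rw [G, ← map_pow, ← map_pow, ← map_sub, ← Nat.cast_pow, bridge1] at h1
  obtain ⟨w, q, e⟩ := h1
  have f1 : (p : ℤ[X]) ∣ (C a + C b * X) ^ p ^ i - (C a + C b * X ^ p ^ i) := by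
    rw [C_dvd_iff]
    have := frob (a : ZMod p) (b : ZMod p) i
    simpa [sub_eq_zero] using this
  have f2 : ∀ t : ℕ, (p : ℤ[X]) ^ 2 ∣
      (C a + C b * X) ^ (p ^ (i + 1) * t) - (C a + C b * X ^ p ^ i) ^ (p * t) := by
    intro t
    have := dvd_sub_pow_of_dvd_sub (f1.trans (sub_dvd_pow_sub_pow _ _ t)) 1
    rw [← pow_mul, ← pow_mul, ← pow_mul] at this
    convert this using 3 <;> ring
  obtain ⟨w1, g1⟩ := f2 (K + l)
  obtain ⟨w2, g2⟩ := f2 l
  have e2 : expand ℤ (p ^ i) ((C a + C b * X) ^ (p * (K + l)) - (C a + C b * X) ^ (p * l)) =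
      (w - w1 + w2) * expand ℤ (p ^ i) ((p : ℤ[X]) ^ 2)
        + q * expand ℤ (p ^ i) (X ^ (p * τ) - 1) := by
    simp only [map_sub, map_pow, map_add, map_mul, expand_C, expand_X, map_natCast, map_one]
    rw [← pow_mul, show p ^ i * (p * τ) = p ^ (i + 1) * τ by ring]
    rw [← mul_add] at e
    push_cast at e
    linear_combination e - g1 + g2
  have e3 := congrArg (contract (p ^ i)) e2
  rw [contract_expand _ hQ, contract_add hQ, contract_mul_expand hQ, contract_mul_expand hQ] at e3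
  have e4 := deriv_arg τ K l hτ a b (contract (p ^ i) (w - w1 + w2)) (contract (p ^ i) q) ha hb hK
    (by rw [e3]; ring)
  have e5 := map_dvd (expand (ZMod p) (p ^ i)) e4
  simp only [map_sub, map_pow, map_add, map_mul, expand_C, expand_X, map_one] at e5
  rw [← frob, ← pow_mul, ← pow_mul, show p ^ i * (p * τ) = p ^ (i + 1) * τ by ring] at e5
  refine ⟨p ^ i * (p * l), ?_⟩
  have := e5.mul_left (C (a : ZMod p) + C (b : ZMod p) * X - 1)
  convert this using 1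
  ring

lemma val_arg {p : ℕ} [hp : Fact p.Prime] (s τ K : ℕ) (hτ : (τ : ZMod p) ≠ 0) (a b : ZMod p)
    (h : LL (p ^ s * τ) p a b (p ^ (s + 1) * K)) : LL (p ^ s * τ) p a b (p ^ s * K) := by
  have hp0 : p ≠ 0 := hp.out.ne_zero
  obtain ⟨l, hl⟩ := h
  have h1 := dvd_mono_l hl (Nat.le_mul_of_pos_left l (Nat.pos_of_ne_zero (pow_ne_zero (s + 1) hp0)))
  have eF : (X : (ZMod p)[X]) ^ (p ^ s * τ) - 1 = (X ^ τ - 1) ^ p ^ s := by
    rw [sub_pow_char_pow, ← pow_mul, mul_comm]; simp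
  have eh : ∀ j : ℕ, (C a + C b * X) ^ (p ^ j * K + p ^ j * l) - (C a + C b * X) ^ (p ^ j * l) =
      ((C a + C b * X) ^ (K + l) - (C a + C b * X) ^ l) ^ p ^ j := by
    intro j
    rw [sub_pow_char_pow, ← pow_mul, ← pow_mul]
    congr 2 <;> ring
  rw [eF, eh] at h1
  have hsq : IsRadical ((X : (ZMod p)[X]) ^ τ - 1) :=
    (X_pow_sub_one_separable_iff.2 hτ).squarefree.isRadical
  have h2 := hsq _ _ ((dvd_pow_self _ (pow_ne_zero s hp0)).trans h1)
  refine ⟨p ^ s * l, ?_⟩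
  rw [eF, eh]
  exact pow_dvd_pow_of_dvd h2 _

lemma pow_fix {p : ℕ} [hp : Fact p.Prime] (a : ZMod p) (t : ℕ) : a ^ ((p - 1) * t + 1) = a := by
  by_cases h : a = 0
  · simp [h]
  · rw [pow_succ, pow_mul, ZMod.pow_card_sub_one_eq_one h]; simp

lemma X_dvd {p σ k : ℕ} [hp : Fact p.Prime] (hσ : σ ≠ 0)
    (h : (X : (ZMod p)[X]) ^ σ - 1 ∣ X ^ k - 1) : σ ∣ k := by
  have h1 : (X : (ZMod p)[X]) ^ σ - 1 ∣ X ^ (σ * (k / σ)) - 1 := by
    have := sub_dvd_pow_sub_pow ((X : (ZMod p)[X]) ^ σ) 1 (k / σ)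
    rwa [one_pow, ← pow_mul] at this
  have h2 : (X : (ZMod p)[X]) ^ σ - 1 ∣ X ^ (k % σ) - 1 := by
    have := dvd_sub h (h1.mul_left (X ^ (k % σ)))
    convert this using 1
    rw [mul_sub, ← pow_add, Nat.mod_add_div]; ring
  by_contra hd
  have hr : k % σ ≠ 0 := fun h => hd (Nat.dvd_of_mod_eq_zero h)
  have h3 := natDegree_le_of_dvd h2 (monicF (ZMod p) hr).ne_zero
  have n1 : ∀ n : ℕ, ((X : (ZMod p)[X]) ^ n - 1).natDegree = n := by
    intro n; simpa using natDegree_X_pow_sub_C (n := n) (r := (1 : ZMod p))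
  rw [n1, n1] at h3
  have := Nat.mod_lt k (Nat.pos_of_ne_zero hσ)
  omega

lemma sym_arg {p σ : ℕ} [hp : Fact p.Prime] (hp2 : p ≠ 2) (hσ : σ ≠ 0) :
    ∃ c : ZMod p, c ≠ 0 ∧ ∀ k, LL σ p c c k → σ ∣ k ∧ p - 1 ∣ k := by
  have h2 : (2 : ZMod p) ≠ 0 := by
    intro h
    have : p ∣ 2 := (ZMod.natCast_eq_zero_iff 2 p).1 (by exact_mod_cast h)
    exact hp2 ((Nat.prime_dvd_prime_iff_eq hp.out Nat.prime_two).1 this)
  obtain ⟨ρ, hρ⟩ := IsCyclic.exists_ofOrder_eq_natCard (α := (ZMod p)ˣ)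
  rw [Nat.card_eq_fintype_card, ZMod.card_units] at hρ
  have hc : (ρ : ZMod p) / 2 ≠ 0 := div_ne_zero ρ.ne_zero h2
  refine ⟨(ρ : ZMod p) / 2, hc, ?_⟩
  set c := (ρ : ZMod p) / 2 with hcdef
  rintro k ⟨l, hl⟩
  have k1 : p - 1 ∣ k := by
    have := eval_dvd (x := (1 : ZMod p)) hl
    simp only [eval_sub, eval_pow, eval_X, one_pow, eval_one, sub_self, zero_dvd_iff, eval_add,
      eval_C, eval_mul, mul_one] at this
    have e : c + c = ρ := by rw [hcdef]; field_simp; ring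
    rw [e, sub_eq_zero, pow_add] at this
    have h3 : (ρ : ZMod p) ^ k = 1 :=
      mul_right_cancel₀ (pow_ne_zero l ρ.ne_zero) (by rw [this, one_mul])
    rw [← hρ, orderOf_dvd_iff_pow_eq_one]
    exact Units.ext (by simpa using h3)
  refine ⟨X_dvd (p := p) hσ ?_, k1⟩
  set F : (ZMod p)[X] := X ^ σ - 1 with hF
  obtain ⟨σ', rfl⟩ : ∃ σ', σ = σ' + 1 := ⟨σ - 1, by omega⟩
  have s1 : F ∣ (X ^ k - 1) * (1 + X) ^ l := by
    rw [← AdjoinRoot.mk_eq_zero]
    set x := AdjoinRoot.mk F X with hx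
    have x1 : x ^ (σ' + 1) = 1 := by
      have : AdjoinRoot.mk F (X ^ (σ' + 1) - 1) = 0 := AdjoinRoot.mk_self
      rwa [map_sub, map_pow, map_one, sub_eq_zero] at this
    have a1 := AdjoinRoot.mk_eq_zero.2 hl
    have a2 : AdjoinRoot.mk F (((C c + C c * X) ^ (k + l) - (C c + C c * X) ^ l).comp (X ^ σ'))
        = 0 := by
      obtain ⟨r, hr⟩ := hl
      rw [hr, mul_comp, map_mul]
      have : AdjoinRoot.mk F (F.comp (X ^ σ')) = 0 := by
        simp only [hF, sub_comp, pow_comp, X_comp, one_comp, map_sub, map_pow, map_one]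
        rw [← hx, ← pow_mul, mul_comm, pow_mul, x1]; simp
      rw [this, zero_mul]
    simp only [sub_comp, pow_comp, add_comp, mul_comp, C_comp, X_comp, map_sub, map_pow, map_add,
      map_mul, map_one, ← hx] at a1 a2 ⊢
    set d := AdjoinRoot.mk F (C c) with hd
    have du : IsUnit d := (isUnit_C.2 (Ne.isUnit hc)).map _
    have b1 : x * (d + d * x ^ σ') = d + d * x := by linear_combination d * x1
    have b2 : (d + d * x) ^ (k + l) = x ^ k * (d + d * x) ^ l := by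
      rw [← b1, mul_pow, mul_pow, sub_eq_zero.1 a2]; ring
    have b3 : d ^ l * ((x ^ k - 1) * (1 + x) ^ l) = 0 := by
      have : (d + d * x) ^ l = d ^ l * (1 + x) ^ l := by rw [← mul_pow]; ring
      rw [b2, this] at a1
      linear_combination a1
    exact ((du.pow l).mul_right_eq_zero).1 b3
  have u2 : IsUnit (2 : (ZMod p)[X]) := by
    have := isUnit_C.2 (Ne.isUnit h2)
    exact this
  rcases Nat.even_or_odd (σ' + 1) with he | ho
  · have ke : Even k := by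
      have : 2 ∣ p - 1 := (hp.out.even_sub_one hp2).two_dvd
      exact even_iff_two_dvd.2 (this.trans k1)
    have s2 : F ∣ (X ^ k - 1) * (1 - X) ^ l := by
      obtain ⟨r, hr⟩ := s1
      have := congrArg (fun f => f.comp (-X)) hr
      simp only [hF, sub_comp, pow_comp, add_comp, mul_comp, X_comp, one_comp, he.neg_pow,
        ke.neg_pow, ← sub_eq_add_neg] at this
      exact ⟨_, this⟩
    have cop : IsCoprime ((1 + X : (ZMod p)[X]) ^ l) ((1 - X) ^ l) := by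
      apply IsCoprime.pow
      obtain ⟨u, hu⟩ := u2.exists_left_inv
      exact ⟨u, u, by linear_combination hu⟩
    obtain ⟨u, v, huv⟩ := cop
    have := dvd_add (s1.mul_left u) (s2.mul_left v)
    convert this using 1
    linear_combination (-(X ^ k - 1 : (ZMod p)[X])) * huv
  · have cop : IsCoprime F ((1 + X : (ZMod p)[X]) ^ l) := by
      apply IsCoprime.pow_right
      obtain ⟨u, hu⟩ := u2.exists_left_inv
      obtain ⟨r, hr⟩ := ho.add_dvd_pow_add_pow (1 : (ZMod p)[X]) X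
      exact ⟨-u, u * r, by rw [hF]; linear_combination hu - u * hr⟩
    exact cop.dvd_of_dvd_mul_right s1

lemma good {p σ : ℕ} [hp : Fact p.Prime] (hσ : σ ≠ 0) (a b : ℤ) (h2 : 2 ≤ Per σ p a b)
    (hc : ¬ p ∣ Per σ p a b ∨ ((a : ZMod p) ≠ 0 ∧ (b : ZMod p) ≠ 0)) :
    ∃ a' b' : ℤ, Per σ p a' b' = Per σ p a b ∧
      ¬ PP ((p : Rz σ) ^ 2) (G σ a' b') (Per σ p a b) := by
  have hp0 : p ≠ 0 := hp.out.ne_zero
  obtain ⟨-, hL⟩ := LL_iff hσ hp0 (a : ZMod p) b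
  have n1 : ¬ LL σ p a b 1 := by
    rw [hL, Nat.dvd_one]; omega
  by_cases hd : p ∣ Per σ p a b
  · obtain ⟨ha, hb⟩ := hc.resolve_left (not_not.2 hd)
    refine ⟨a, b, rfl, fun h => n1 ?_⟩
    obtain ⟨i, K, hK, e⟩ := Nat.exists_eq_pow_mul_and_not_dvd (n := Per σ p a b) (by omega) p
      hp.out.ne_one
    have hK' : (K : ZMod p) ≠ 0 := fun h => hK ((ZMod.natCast_eq_zero_iff K p).1 h)
    obtain ⟨i, rfl⟩ : ∃ j, i = j + 1 := by
      cases i with
      | zero => rw [e] at hd; simp at hd; exact absurd hd hK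
      | succ j => exact ⟨j, rfl⟩
    obtain ⟨s, τ, hτ, eσ⟩ := Nat.exists_eq_pow_mul_and_not_dvd hσ p hp.out.ne_one
    have hτ' : (τ : ZMod p) ≠ 0 := fun h => hτ ((ZMod.natCast_eq_zero_iff τ p).1 h)
    by_cases hs : i + 1 ≤ s
    · obtain ⟨d, rfl⟩ := Nat.exists_eq_add_of_le hs
      have eσ' : σ = p ^ (i + 1) * (p ^ d * τ) := by rw [eσ]; ring
      rw [e] at h
      clear eσ
      subst eσ'
      exact reduce_arg i _ K (right_ne_zero_of_mul hσ) a b ha hb hK' h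
    · exfalso
      obtain ⟨d, rfl⟩ : ∃ d, i = s + d := ⟨i - s, by omega⟩
      have m1 : LL σ p a b (p ^ (s + 1) * (p ^ d * K)) := by
        rw [hL, e]; exact ⟨1, by ring⟩
      rw [eσ] at m1
      have m2 := val_arg s τ _ hτ' _ _ m1
      rw [← eσ, hL, e] at m2
      have hKp : 0 < K := Nat.pos_of_ne_zero (fun h => hK (by simp [h]))
      have := Nat.le_of_dvd (by positivity) m2
      have h3 : 0 < p ^ s * (p ^ d * K) := by positivity
      have h4 := hp.out.two_le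
      rw [show p ^ (s + d + 1) * K = p * (p ^ s * (p ^ d * K)) by ring] at this
      nlinarith
  · by_cases h : PP ((p : Rz σ) ^ 2) (G σ a b) (Per σ p a b)
    · refine ⟨(1 + p) * a, (1 + p) * b, by simp, fun h' => n1 ?_⟩
      have eG : G σ ((1 + p) * a) ((1 + p) * b) = (1 + p) * G σ a b := by
        simp [G]; ring
      rw [eG] at h'
      exact (PP_iff σ p a b 1).1 (twist hp.out (reg hσ hp0) _ _ hd h h')
    · exact ⟨a, b, rfl, h⟩

lemma le_max {σ n : ℕ} (hn : n ≠ 0) (a b : ZMod n) : Per σ n a b ≤ maxPer σ n := by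
  have : NeZero n := ⟨hn⟩
  exact le_ciSup (f := fun ab : ZMod n × ZMod n => Per σ n ab.1 ab.2)
    (Set.finite_range _).bddAbove (a, b)

lemma ex_max {σ n : ℕ} (hn : n ≠ 0) : ∃ a b : ℤ, Per σ n a b = maxPer σ n := by
  have : NeZero n := ⟨hn⟩
  obtain ⟨⟨a, b⟩, h⟩ := exists_eq_ciSup_of_finite
    (f := fun ab : ZMod n × ZMod n => Per σ n ab.1 ab.2)
  obtain ⟨a, rfl⟩ := ZMod.intCast_surjective a
  obtain ⟨b, rfl⟩ := ZMod.intCast_surjective b
  exact ⟨a, b, h⟩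

lemma base {p σ : ℕ} [hp : Fact p.Prime] (hp2 : p ≠ 2) (hσ : σ ≠ 0) :
    ∃ a b : ℤ, Per σ p a b = maxPer σ p ∧ ¬ PP ((p : Rz σ) ^ 2) (G σ a b) (maxPer σ p) := by
  have hp0 : p ≠ 0 := hp.out.ne_zero
  have hp3 : 3 ≤ p := by have := hp.out.two_le; omega
  obtain ⟨c, hc, hsym⟩ := sym_arg (p := p) hp2 hσ
  obtain ⟨c, rfl⟩ := ZMod.intCast_surjective c
  obtain ⟨c1, cL⟩ := LL_iff hσ hp0 (c : ZMod p) c
  obtain ⟨c2, c3⟩ := hsym _ ((cL _).2 dvd_rfl)
  have c4 := le_max (σ := σ) hp0 (c : ZMod p) c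
  have c5 := Nat.le_of_dvd c1 c3
  obtain ⟨a, b, hab⟩ := ex_max (σ := σ) hp0
  obtain ⟨-, hL⟩ := LL_iff hσ hp0 (a : ZMod p) b
  by_cases hz : (a : ZMod p) ≠ 0 ∧ (b : ZMod p) ≠ 0
  · rw [← hab]; exact good hσ a b (by omega) (Or.inr hz)
  have hle : maxPer σ p ≤ Per σ p c c := by
    apply Nat.le_of_dvd c1
    rw [← hab, ← hL]
    obtain ⟨t, ht⟩ := c3
    obtain ⟨t', ht'⟩ := c2
    refine ⟨1, ?_⟩
    rcases not_and_or.1 hz with h | h
    · rw [not_not.1 h, C_0, zero_add, mul_pow, ← C_pow]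
      have e : (b : ZMod p) ^ (Per σ p c c + 1) = b := by rw [ht, pow_fix]
      rw [e, ht']
      have := (sub_dvd_pow_sub_pow ((X : (ZMod p)[X]) ^ σ) 1 t').mul_left (C (b : ZMod p) * X)
      convert this using 1
      ring
    · rw [not_not.1 h, C_0, zero_mul, add_zero, ← C_pow, ht, pow_fix]
      simp
  have he : Per σ p c c = maxPer σ p := le_antisymm c4 hle
  rw [← he]
  exact good hσ c c (by omega) (Or.inr ⟨hc, hc⟩)

theorem result (p : ℕ) (hp : p.Prime)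
    (h : ∃ σ m : ℕ, 1 ≤ σ ∧ 2 ≤ m ∧ maxPer σ (p ^ m) < p * maxPer σ (p ^ (m - 1))) : p = 2 := by
  by_contra hp2
  have : Fact p.Prime := ⟨hp⟩
  obtain ⟨σ, m, hσ, hm, hlt⟩ := h
  have hσ' : σ ≠ 0 := by omega
  have hp0 : p ≠ 0 := hp.ne_zero
  have hodd : Odd p := hp.odd_of_ne_two hp2
  have iff : ∀ (j : ℕ) (a b : ℤ) (k : ℕ),
      PP ((p : Rz σ) ^ j) (G σ a b) k ↔ Per σ (p ^ j) a b ∣ k := by
    intro j a b k
    rw [← Nat.cast_pow, PP_iff, (LL_iff hσ' (pow_ne_zero j hp0) _ _).2]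
  have pos : ∀ (j : ℕ) (a b : ℤ), 1 ≤ Per σ (p ^ j) a b :=
    fun j a b => (LL_iff hσ' (pow_ne_zero j hp0) _ _).1
  have iff1 : ∀ (a b : ℤ) (k : ℕ), PP ((p : Rz σ) ^ 1) (G σ a b) k ↔ Per σ p a b ∣ k := by
    intro a b k
    rw [pow_one, PP_iff, (LL_iff hσ' hp0 _ _).2]
  have upper : ∀ j : ℕ, maxPer σ (p ^ (j + 1)) ≤ p ^ j * maxPer σ p := by
    intro j
    obtain ⟨a, b, hab⟩ := ex_max (σ := σ) (pow_ne_zero (j + 1) hp0)
    have key : ∀ i : ℕ, PP ((p : Rz σ) ^ (i + 1)) (G σ a b) (p ^ i * Per σ p a b) := by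
      intro i
      induction i with
      | zero => simpa using (iff1 a b _).2 dvd_rfl
      | succ i ih =>
        rw [show p ^ (i + 1) * Per σ p a b = p * (p ^ i * Per σ p a b) by ring]
        exact (lift_step hodd (reg hσ' hp0) _ i _ ih).1
    have h1 := (LL_iff hσ' hp0 (a : ZMod p) b).1
    have := Nat.le_of_dvd (by positivity) ((iff _ a b _).1 (key j))
    rw [← hab]
    exact this.trans (Nat.mul_le_mul_left _ (le_max hp0 _ _))
  obtain ⟨j, rfl⟩ : ∃ j, m = j + 2 := ⟨m - 2, by omega⟩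
  obtain ⟨a, b, hab, hn⟩ := base (p := p) hp2 hσ'
  have L := lift_all hodd (reg hσ' hp0) (G σ a b) (maxPer σ p)
    ((iff1 a b _).2 (hab ▸ dvd_rfl)) hn
  have d1 := (iff _ a b _).1 (L (j + 1)).1
  have d2 : ¬ Per σ (p ^ (j + 2)) a b ∣ p ^ j * maxPer σ p := fun h => (L j).2 ((iff _ a b _).2 h)
  have d3 : maxPer σ p ∣ Per σ (p ^ (j + 2)) a b := by
    rw [← hab, ← iff1]
    obtain ⟨l, hl⟩ := (iff (j + 2) a b _).2 dvd_rfl
    exact ⟨l, (pow_dvd_pow _ (by omega)).trans hl⟩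
  obtain ⟨t, ht⟩ := d3
  have hK : 0 < maxPer σ p := hab ▸ (LL_iff hσ' hp0 (a : ZMod p) b).1
  rw [show j + 1 + 1 = j + 2 by ring, ht, mul_comm (p ^ (j + 1))] at d1
  obtain ⟨i, hi, rfl⟩ := (Nat.dvd_prime_pow hp).1 (Nat.dvd_of_mul_dvd_mul_left hK d1)
  have hi' : i = j + 1 := by
    by_contra hne
    apply d2
    rw [ht, mul_comm]
    exact Nat.mul_dvd_mul_right (pow_dvd_pow _ (by omega)) _
  subst hi'
  have u1 := upper j
  have u2 := le_max (σ := σ) (pow_ne_zero (j + 2) hp0) (a : ZMod (p ^ (j + 2))) b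
  rw [ht] at u2
  rw [show j + 2 - 1 = j + 1 by omega] at hlt
  have u3 := Nat.mul_le_mul_left p u1
  rw [show p * (p ^ j * maxPer σ p) = maxPer σ p * p ^ (j + 1) by ring] at u3
  omega

end Pool.Agent.Results.MP_25c86d_nt.OddPrimes
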